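import Pool.Agent.Work.MP_768e99_five.Interface

/-!
# Four colours for `K_{3,s}`-minor-free graphs, defect `s - 2` (note 3470): definitions

`Conn`, `KM` are those of `Work/MP_768e99_co`; `Tch`, `nb`, `Free`, `Cmp`, `IsCmp`, `IsCut`, `Rt` those
of `Work/MP_768e99_five` (namespace `Pool.K3F`).
-/

set_option autoImplicit false

namespace Pool.K3G

open Pool.Agent.Work.MP_768e99_co Pool.K3F

/-- The vertices linked to both roots: they lie in a connected set, disjoint from the region `C`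
and from the roots `O`, `Y`, which touches both roots. -/
def Dl {V : Type} (G : SimpleGraph V) (C O Y : Set V) : Set V :=
  {v | ∃ Z : Set V, Conn G Z ∧ v ∈ Z ∧ Disjoint Z C ∧ Disjoint Z O ∧ Disjoint Z Y ∧
    Tch G Z O ∧ Tch G Z Y}

/-- A root `O` with its cluster `Q` of special vertices; `O \ Q` is its main part. -/
structure Root {V : Type} (G : SimpleGraph V) (O Q : Set V) : Prop where
  sub : Q ⊆ O
  main : Conn G (O \ Q)
  cl : Q = ∅ ∨ (Conn G Q ∧ Tch G Q (O \ Q))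
  card : Q.ncard ≤ 3

/-- The region `C` and the roots `O`, `Y`. -/
structure Pre {V : Type} (G : SimpleGraph V) (C O Y : Set V) : Prop where
  conn : Conn G C
  connO : Conn G O
  connY : Conn G Y
  dCO : Disjoint C O
  dCY : Disjoint C Y
  dOY : Disjoint O Y
  tO : Tch G C O
  tY : Tch G C Y

/-- **State**: region `C`, roots `O`, `Y` with clusters `Q`, `Q'`. All neighbours of `C` lie in
`C`, `O`, `Y` or are linked to both roots. The visible vertices of `O \ Q` have the colour `o`,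
those of `Y \ Q'` the colour `y`, those of `Q`, `Q'` and the linked ones the colour `D`. (A main
part may be invisible; `o = y` is allowed.) -/
structure St4 {V : Type} (G : SimpleGraph V) (C O Q Y Q' : Set V) (o y D : Fin 4)
    (c : V → Fin 4) : Prop where
  conn : Conn G C
  rO : Root G O Q
  rY : Root G Y Q'
  dCO : Disjoint C O
  dCY : Disjoint C Y
  dOY : Disjoint O Y
  tO : Tch G C O
  tY : Tch G C Y
  out : ∀ x ∈ C, ∀ u, G.Adj x u → u ∈ C ∨ u ∈ O ∨ u ∈ Y ∨ u ∈ Dl G C O Y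
  oD : o ≠ D
  yD : y ≠ D
  cO : ∀ x ∈ C, ∀ u ∈ O \ Q, G.Adj x u → c u = o
  cY : ∀ x ∈ C, ∀ u ∈ Y \ Q', G.Adj x u → c u = y
  cD : ∀ x ∈ C, ∀ u, (u ∈ Q ∨ u ∈ Q' ∨ u ∈ Dl G C O Y) → G.Adj x u → c u = D

/-- `C` is the region of a state whose set of special vertices `Q ∪ Q'` is `S`. -/
def IsSt {V : Type} (G : SimpleGraph V) (C S : Set V) (c : V → Fin 4) : Prop :=
  ∃ (O Q Y Q' : Set V) (o y D : Fin 4), St4 G C O Q Y Q' o y D c ∧ S = Q ∪ Q'

/-- **State with one root** `Z` (possibly empty), which shows one colour. -/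
structure Sg {V : Type} (G : SimpleGraph V) (C Z : Set V) (c : V → Fin 4) : Prop where
  conn : Conn G C
  connZ : Z = ∅ ∨ Conn G Z
  dCZ : Disjoint C Z
  out : ∀ x ∈ C, ∀ u, G.Adj x u → u ∈ C ∨ u ∈ Z
  vZ : ∃ z : Fin 4, ∀ x ∈ C, ∀ u ∈ Z, G.Adj x u → c u = z

/-- A state of one of the two kinds. -/
def Any {V : Type} (G : SimpleGraph V) (C S : Set V) (c : V → Fin 4) : Prop :=
  IsSt G C S c ∨ (S = ∅ ∧ ∃ Z, Sg G C Z c)

/-- A good extension `c` of the colouring `c₀` to the region `C`: defect at most `d` in `C`; only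
vertices of `S` have conflicts with `C`, at most three each. -/
structure Gd {V : Type} (G : SimpleGraph V) (d : ℕ) (C S : Set V) (c₀ c : V → Fin 4) :
    Prop where
  off : ∀ v, v ∉ C → c v = c₀ v
  defect : ∀ x ∈ C, {y | G.Adj x y ∧ c y = c x}.ncard ≤ d
  conf : ∀ x ∈ C, ∀ u, u ∉ C → G.Adj x u → c u = c x → u ∈ S
  few : ∀ u, u ∉ C → {x | x ∈ C ∧ G.Adj u x ∧ c x = c u}.ncard ≤ 3

/-- The cluster `Q` of the root `O` is linked to the root `Y` outside `C`. -/
def LK {V : Type} (G : SimpleGraph V) (C O Q Y : Set V) : Prop :=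
  ∃ T : Set V, Conn G T ∧ Disjoint T C ∧ Disjoint T (O \ Q) ∧ Disjoint T Y ∧
    (T ∩ Q).Nonempty ∧ Tch G T Y

/-- `Y` with the components of `C \ H` which touch `Y`. -/
def Sd {V : Type} (G : SimpleGraph V) (C H Y : Set V) : Set V :=
  Y ∪ {v | v ∈ C \ H ∧ Tch G (Cmp G (C \ H) v) Y}

/-- The cut `H` with its special vertices `R`. -/
structure Ct {V : Type} (G : SimpleGraph V) (d : ℕ) (C O Y H R : Set V) : Prop where
  sub : H ⊆ C
  ne : H.Nonempty
  sep : ∀ F : Set V, F ⊆ C \ H → Conn G F → ¬ (Tch G F O ∧ Tch G F Y)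
  hO : ∀ h ∈ H, Tch G {h} (Sd G C H O)
  hY : ∀ h ∈ H, Tch G {h} (Sd G C H Y)
  subR : R ⊆ H
  connR : R = ∅ ∨ Conn G R
  card : R.ncard ≤ 3
  deg : ∀ v ∈ H \ R, (nb G v (H \ R)).ncard ≤ d
  offD : ∀ r ∈ R, ∀ u ∈ Dl G C O Y, ¬ G.Adj r u

/-- No component of `C \ H` which touches `O`, except `F`, touches `A`. -/
def Alone {V : Type} (G : SimpleGraph V) (C H O A F : Set V) : Prop :=
  ∀ F', IsCmp G (C \ H) F' → Tch G F' O → F' ≠ F → ¬ Tch G F' A

/-- What is used about the set `S` of special vertices of a child `F` on the side of `O`. -/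
structure Kp {V : Type} (G : SimpleGraph V) (C O H Q R F S : Set V) : Prop where
  sub : S ⊆ Q ∪ R
  pQ : (S ∩ Q).Nonempty →
    ¬ Tch G Q R ∧ (Alone G C H O Q F ∨ (Tch G F R ∧ Alone G C H O R F))
  pR : (S ∩ R).Nonempty → Alone G C H O R F ∨ (Tch G F Q ∧ Alone G C H O Q F)

open Classical in
/-- Colour the special vertices `R` by `g` and the rest of the cut `H` by `f`. -/
noncomputable def pnt {V : Type} (c₀ : V → Fin 4) (H R : Set V) (f g : Fin 4) : V → Fin 4 :=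
  fun v => if v ∈ R then g else if v ∈ H then f else c₀ v

/-- The result of gluing. -/
structure Node4 {V : Type} (G : SimpleGraph V) (d : ℕ) (C O Q Y Q' H R : Set V)
    (o y D f : Fin 4) (c₀ c : V → Fin 4) : Prop where
  st : St4 G C O Q Y Q' o y D c₀
  cut : Ct G d C O Y H R
  fo : f ≠ o
  fy : f ≠ y
  fD : f ≠ D
  cM : ∀ v ∈ H \ R, c v = f
  cR : ∀ v ∈ R, c v = D
  off : ∀ v, v ∉ C → c v = c₀ v
  kidO : ∀ F, IsCmp G (C \ H) F → Tch G F O →
    ∃ S, Kp G C O H Q R F S ∧ Gd G d F S c c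
  kidY : ∀ F, IsCmp G (C \ H) F → Tch G F Y →
    ∃ S, Kp G C Y H Q' R F S ∧ Gd G d F S c c
  kid0 : ∀ F, IsCmp G (C \ H) F → ¬ Tch G F O → ¬ Tch G F Y → Gd G d F ∅ c c

/-- The graph of the edges of `G` inside `U`. -/
def Rs {V : Type} (G : SimpleGraph V) (U : Set V) : SimpleGraph V where
  Adj x y := x ∈ U ∧ y ∈ U ∧ G.Adj x y
  symm := ⟨fun _ _ h => ⟨h.2.1, h.1, h.2.2.symm⟩⟩
  loopless := ⟨fun _ h => h.2.2.ne rfl⟩

/-! ### Symmetry -/

theorem Dl_comm {V : Type} (G : SimpleGraph V) (C O Y : Set V) : Dl G C O Y = Dl G C Y O := by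
  ext v
  constructor
  · rintro ⟨Z, h1, h2, h3, h4, h5, h6, h7⟩
    exact ⟨Z, h1, h2, h3, h5, h4, h7, h6⟩
  · rintro ⟨Z, h1, h2, h3, h4, h5, h6, h7⟩
    exact ⟨Z, h1, h2, h3, h5, h4, h7, h6⟩

theorem Pre.symm {V : Type} {G : SimpleGraph V} {C O Y : Set V} (h : Pre G C O Y) :
    Pre G C Y O :=
  ⟨h.conn, h.connY, h.connO, h.dCY, h.dCO, h.dOY.symm, h.tY, h.tO⟩

theorem St4.symm {V : Type} {G : SimpleGraph V} {C O Q Y Q' : Set V} {o y D : Fin 4}
    {c : V → Fin 4} (h : St4 G C O Q Y Q' o y D c) : St4 G C Y Q' O Q y o D c := by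
  refine ⟨h.conn, h.rY, h.rO, h.dCY, h.dCO, h.dOY.symm, h.tY, h.tO, ?_, h.yD, h.oD, h.cY,
    h.cO, ?_⟩
  · intro x hx u hu
    rw [Dl_comm G C Y O]
    rcases h.out x hx u hu with h1 | h1 | h1 | h1
    · exact Or.inl h1
    · exact Or.inr (Or.inr (Or.inl h1))
    · exact Or.inr (Or.inl h1)
    · exact Or.inr (Or.inr (Or.inr h1))
  · intro x hx u hu
    rw [Dl_comm G C Y O] at hu
    refine h.cD x hx u ?_
    rcases hu with h1 | h1 | h1
    · exact Or.inr (Or.inl h1)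
    · exact Or.inl h1
    · exact Or.inr (Or.inr h1)

theorem Ct.symm {V : Type} {G : SimpleGraph V} {d : ℕ} {C O Y H R : Set V}
    (h : Ct G d C O Y H R) : Ct G d C Y O H R :=
  ⟨h.sub, h.ne, fun F hF hc ht => h.sep F hF hc ht.symm, h.hY, h.hO, h.subR, h.connR, h.card,
    h.deg, fun r hr u hu => h.offD r hr u (by rwa [Dl_comm G C O Y])⟩

theorem Node4.symm {V : Type} {G : SimpleGraph V} {d : ℕ} {C O Q Y Q' H R : Set V}
    {o y D f : Fin 4} {c₀ c : V → Fin 4} (h : Node4 G d C O Q Y Q' H R o y D f c₀ c) :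
    Node4 G d C Y Q' O Q H R y o D f c₀ c :=
  ⟨h.st.symm, h.cut.symm, h.fy, h.fo, h.fD, h.cM, h.cR, h.off, h.kidY, h.kidO,
    fun F hF h1 h2 => h.kid0 F hF h2 h1⟩

end Pool.K3G
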