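import Pool.Agent.Work.MP_768e99_quad.Defs

/-!
# Four colours for `K_{3,s}`-minor-free graphs, defect `s - 2` (note 3470): blocks

Block `X` is one file `B_X.lean` in this folder: `import Pool.Agent.Work.MP_768e99_quad.Interface`,
`namespace Pool.K3G`, the open line below, `theorem p_X : Stmt_X` with the blocks of the column
`uses` as hypotheses in that order (`theorem p_X (hA : Stmt_A) (hB : Stmt_B) : Stmt_X`). `CN1`,
`CN2`, `CMP`, `K3`, `CUT`, `DEG`, `PAIR`, `QUAD` are the statements `Pool.K3F.Stmt_CN1`, ... of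
`Work/MP_768e99_five/Interface.lean`. Auxiliary lemmas are prefixed `X_`.

In all proofs: two connected sets which touch (or meet) have a connected union (CN1); a family of
connected sets touching a connected set `Q` has a connected union with it (CN2). A component `F` of
`C \ H` (`IsCmp`) is connected and closed in `C \ H`; two components are equal or disjoint (CMP).
`Rt G C H Y = Y ∪ H ∪ U_Y` (all components of `C \ H` touching `Y`).
-/

set_option autoImplicit false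

namespace Pool.K3G

open Pool.Agent.Work.MP_768e99_co Pool.K3F

/-! ### The cut -/

/-- **RSG** (60 lines). The graph `Rs G U` of the edges inside `U`. Third claim: the branch sets of a
minor of `Rs G U` are connected in `G` (each set connected in `Rs G U` is connected in `G`, and its
edges are edges of `G`). -/
def Stmt_RSG : Prop := ∀ (V : Type) (G : SimpleGraph V) (U : Set V),
  (∀ S ⊆ U, Conn (Rs G U) S ↔ Conn G S) ∧
  (∀ S ⊆ U, ∀ T ⊆ U, Tch (Rs G U) S T ↔ Tch G S T) ∧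
  ∀ s, Free G s → Free (Rs G U) s

/-- **CT1** (80 lines; uses RSG CUT DEG PAIR QUAD). The minimum cut. Proof: `U = C ∪ O ∪ Y`,
`G' = Rs G U`; `Reg G' C O Y` (RSG; `out` is trivial in `G'`). CUT, DEG, PAIR, QUAD
(`c = 2`, `K = 2`, `Par (d + 2) d 2 2`) for `G'`; `IsCut G'` gives `IsCut G` by RSG, and
`nb G' x H = nb G x H` for `x ∈ H ⊆ C`. -/
def Stmt_CT1 : Prop := ∀ (V : Type) [Fintype V] (G : SimpleGraph V) (d : ℕ) (C O Y : Set V),
  14 ≤ d → Free G (d + 2) → Pre G C O Y → ∃ (H : Set V) (P : V → Set V), H.Nonempty ∧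
    IsCut G O Y C H P ∧ (∀ x ∈ H, (nb G x H).ncard < d + 2) ∧
    (∀ x₁ ∈ H, ∀ x₂ ∈ H, x₁ ≠ x₂ → ¬ G.Adj x₁ x₂ →
      (nb G x₁ H ∪ nb G x₂ H).ncard ≤ d + 3) ∧
    ∀ T ⊆ H, (∀ x ∈ T, d + 1 ≤ (nb G x H).ncard) → (∀ x ∈ T, ∀ y ∈ T, ¬ G.Adj x y) →
      T.ncard ≤ 2

/-- **CT2** (100 lines). The choice of the special vertices. Call `x ∈ H` bad if it has at least
`d + 1` neighbours in `H`. Proof: no bad vertex: `R = ∅`. Otherwise let `x₁` be bad. If all other
bad vertices are adjacent to `x₁`: `R = {x₁}`. Otherwise `x₂` is bad, not adjacent to `x₁`; the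
second hypothesis gives a common neighbour `y ∈ H` (`2 (d + 1) - (d + 3) > 0`);
`R = {x₁, y, x₂}`, connected. Each bad `v ∈ H \ R` is adjacent to a vertex of `R` (in the last case:
`{x₁, x₂, v}` would be three pairwise nonadjacent bad vertices), so it has at most
`(d + 1) - 1 = d` neighbours in `H \ R`. -/
def Stmt_CT2 : Prop := ∀ (V : Type) [Fintype V] (G : SimpleGraph V) (d : ℕ) (H : Set V),
  14 ≤ d → (∀ x ∈ H, (nb G x H).ncard < d + 2) →
  (∀ x₁ ∈ H, ∀ x₂ ∈ H, x₁ ≠ x₂ → ¬ G.Adj x₁ x₂ → (nb G x₁ H ∪ nb G x₂ H).ncard ≤ d + 3) →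
  (∀ T ⊆ H, (∀ x ∈ T, d + 1 ≤ (nb G x H).ncard) → (∀ x ∈ T, ∀ y ∈ T, ¬ G.Adj x y) →
    T.ncard ≤ 2) →
  ∃ R ⊆ H, (R = ∅ ∨ Conn G R) ∧ R.ncard ≤ 3 ∧
    (∀ v ∈ H \ R, (nb G v (H \ R)).ncard ≤ d) ∧
    ∀ r ∈ R, d + 1 ≤ (nb G r H).ncard ∨ ∃ x₁ ∈ H, ∃ x₂ ∈ H, x₁ ≠ x₂ ∧ ¬ G.Adj x₁ x₂ ∧
      G.Adj x₁ r ∧ G.Adj x₂ r ∧ d + 1 ≤ (nb G x₁ H).ncard

/-- **CT3** (100 lines; uses K3). A special vertex `r` is not adjacent to a linked vertex `u ∈ Z`.
Proof: suppose `G.Adj r u`. K3 with `ι = Option V`, leaves `P h` (`some h`) and `Z` (`none`). First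
case: centres `{r}`, `O`, `Y`, leaves `P h` for `h ∈ nb G r H`, and `Z`: at least `d + 2`. Second
case: centres `{x₁, r}`, `O`, `Y`, leaves `P h` for `h ∈ (nb G x₁ H \ {r}) ∪ {x₂}` (`x₂` is not in
`nb G x₁ H`; `x₂ ∈ P x₂` is adjacent to `r`), and `Z`: at least `(d + 1 - 1) + 1 + 1`. The sets
`P h` lie in `C`, `Z` is disjoint from `C`, `O`, `Y`; `x₁, r ∉ P h` for `h ≠ x₁, r` (the `P` are
disjoint). -/
def Stmt_CT3 : Prop := ∀ (V : Type) [Fintype V] (G : SimpleGraph V) (d : ℕ) (C O Y H : Set V)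
  (P : V → Set V), Free G (d + 2) → Pre G C O Y → IsCut G O Y C H P → ∀ r ∈ H,
  (d + 1 ≤ (nb G r H).ncard ∨ ∃ x₁ ∈ H, ∃ x₂ ∈ H, x₁ ≠ x₂ ∧ ¬ G.Adj x₁ x₂ ∧
    G.Adj x₁ r ∧ G.Adj x₂ r ∧ d + 1 ≤ (nb G x₁ H).ncard) →
  ∀ u ∈ Dl G C O Y, ¬ G.Adj r u

/-- **SDH** (50 lines; uses CMP). Each vertex `h` of the cut touches `Sd G C H Y`. Proof: `P h` is
connected, contains `h` and touches `Y`, say `w ∈ P h` is adjacent to `Y`; if `w = h` fine. Else
`w ∈ C \ H` (as `P h ∩ H = {h}`); let `D = Cmp G (C \ H) w`, which touches `Y`, so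
`D ⊆ Sd G C H Y`; `P h` is connected and `h ∉ D`, so some `a ∈ D ∩ P h` is adjacent to some
`b ∈ P h \ D`; `b ∈ C \ H` would give `b ∈ D`, so `b = h`. -/
def Stmt_SDH : Prop := ∀ (V : Type) (G : SimpleGraph V) (C O Y H : Set V) (P : V → Set V),
  IsCut G O Y C H P → ∀ h ∈ H, Tch G {h} (Sd G C H Y)

/-- **CTX** (40 lines; uses CT1 CT2 CT3 SDH). The cut with its special vertices (`hO` is SDH for
`IsCut.symm`). -/
def Stmt_CTX : Prop := ∀ (V : Type) [Fintype V] (G : SimpleGraph V) (d : ℕ) (C O Y : Set V),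
  14 ≤ d → Free G (d + 2) → Pre G C O Y → ∃ H R : Set V, Ct G d C O Y H R

/-- **SDR** (70 lines; uses CN2 CMP). The new root is connected, also without a set `N` of vertices
of the cut. Proof: `Rt G C H Y \ N = Sd G C H Y ∪ (H \ N)`; `Sd` is `Y` with the components touching
`Y` (CN2); then add the single vertices `h ∈ H \ N`, which touch `Sd` (CN2, `Ct.hY`). The second
claim: the same for `Sd G C H Y ∪ N`. -/
def Stmt_SDR : Prop := ∀ (V : Type) (G : SimpleGraph V) (d : ℕ) (C O Y H R : Set V),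
  Pre G C O Y → Ct G d C O Y H R → ∀ N ⊆ H,
  Conn G (Rt G C H Y \ N) ∧ Conn G (Sd G C H Y ∪ N)

/-! ### Normalization of a state -/

/-- **PRE** (20 lines; uses CN1). The roots of a state are connected: `O = (O \ Q) ∪ Q`. -/
def Stmt_PRE : Prop := ∀ (V : Type) (G : SimpleGraph V),
  (∀ O Q : Set V, Root G O Q → Conn G O) ∧
  ∀ (C O Q Y Q' : Set V) (o y D : Fin 4) (c : V → Fin 4), St4 G C O Q Y Q' o y D c →
    Pre G C O Y

/-- **REM** (80 lines; uses CN1). A cluster which is linked to the other root outside the region is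
removed from its root (its visible vertices become linked vertices). Proof: let `T` be the link. For
`u ∈ Q` the set `Z = T ∪ Q` shows `u ∈ Dl G C (O \ Q) Y`: it is connected, disjoint from `C`,
`O \ Q`, `Y`, touches `Y` by `T` and `O \ Q` by `Q`. For `u ∈ Dl G C O Y` with the set `Z`: if `Z`
touches `O \ Q` take `Z`, otherwise `Z` touches `Q`: take `Z ∪ Q`. Colours (`cD`): a visible vertex
of `Dl G C (O \ Q) Y` is not in `C`, `O \ Q`, `Y`, so by `out` it is in `Q` or in `Dl G C O Y`. -/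
def Stmt_REM : Prop := ∀ (V : Type) (G : SimpleGraph V) (C O Q Y Q' : Set V) (o y D : Fin 4)
  (c : V → Fin 4), St4 G C O Q Y Q' o y D c → Tch G C (O \ Q) → LK G C O Q Y →
  St4 G C (O \ Q) ∅ Y Q' o y D c

/-- **FOR** (30 lines; uses PRE). An invisible cluster is forgotten. -/
def Stmt_FOR : Prop := ∀ (V : Type) (G : SimpleGraph V) (C O Q Y Q' : Set V) (o y D : Fin 4)
  (c : V → Fin 4), St4 G C O Q Y Q' o y D c → ¬ Tch G C Q → St4 G C O ∅ Y Q' o y D c

/-- **FRE** (80 lines; uses PRE CN2). If there is no cluster on `O` and the main part of `Y` is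
invisible: `D` becomes the main colour of the root `Y₁ = Y ∪ Dl G C O Y` (connected by CN2: the sets
`Z` touch `Y`), and `D₁` is a third colour (`D₁ ≠ o`, `D₁ ≠ D`). There is no visible vertex in
`Dl G C O Y₁` because all visible vertices are in `C`, `O`, `Y₁`. -/
def Stmt_FRE : Prop := ∀ (V : Type) (G : SimpleGraph V) (C O Y Q' : Set V) (o y D : Fin 4)
  (c : V → Fin 4), St4 G C O ∅ Y Q' o y D c → ¬ Tch G C (Y \ Q') →
  ∃ D₁ : Fin 4, St4 G C O ∅ (Y ∪ Dl G C O Y) ∅ o D D₁ c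

/-- **FRD** (60 lines; uses PRE CN2). If both main parts are invisible, all visible vertices have
the colour `D`: the roots are `O` and `Y ∪ Dl G C O Y`, both with the main colour `D`, `D₁ ≠ D`. -/
def Stmt_FRD : Prop := ∀ (V : Type) (G : SimpleGraph V) (C O Q Y Q' : Set V) (o y D : Fin 4)
  (c : V → Fin 4), St4 G C O Q Y Q' o y D c → ¬ Tch G C (O \ Q) → ¬ Tch G C (Y \ Q') →
  ∃ D₁ : Fin 4, St4 G C O ∅ (Y ∪ Dl G C O Y) ∅ D D D₁ c

/-- **NRM** (120 lines; uses REM FOR FRE FRD CN1). Normalization: each state can be replaced by one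
(with the same region and colouring) whose special set `S` is `Q ∪ Q'`, `Q`, `Q'` or `∅`, such that
clusters which are linked outside `C` are not in `S` (up to the second alternative). Proof.
Let `L₁ = LK G C O Q Y`, `L₂ = LK G C Y Q' O`. (A) `C` touches `O \ Q` and `Y \ Q'`. Not `L₁`, not
`L₂`: `S = Q ∪ Q'`. `L₁`, not `L₂`: REM, `S = Q'` (`Q` and `Q'` are disjoint). Not `L₁`, `L₂`: REM for
the symmetric state (`St4.symm`), `S = Q`. Both: REM for `Q'` gives a state with the root `Y \ Q'`;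
the link `T` of `Q` touches `Y \ Q'`, or it touches `Q'` and then `T ∪ Q'` is a link (disjoint from
`Y \ Q'`, touches it): `LK G C O Q (Y \ Q')`, REM again, `S = ∅`. (B) `C` touches `O \ Q`, not
`Y \ Q'`. If `C` does not touch `Q`: FOR and FRE, `S = ∅`. If `L₁`: REM and FRE, `S = ∅`. Otherwise
the state itself, `S = Q ∪ Q'`: the first conclusion by not `L₁`, the second one by
`Tch G C Q` and not `L₁`. (C) `C` touches `Y \ Q'`, not `O \ Q`: symmetric to (B). (D) `C` touches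
neither: FRD, `S = ∅`. -/
def Stmt_NRM : Prop := ∀ (V : Type) (G : SimpleGraph V) (C O Q Y Q' : Set V) (o y D : Fin 4)
  (c : V → Fin 4), St4 G C O Q Y Q' o y D c → ∃ S, IsSt G C S c ∧ S ⊆ Q ∪ Q' ∧
    ((S ∩ Q).Nonempty → ¬ LK G C O Q Y ∨ (Tch G C Q' ∧ ¬ LK G C Y Q' O)) ∧
    ((S ∩ Q').Nonempty → ¬ LK G C Y Q' O ∨ (Tch G C Q ∧ ¬ LK G C O Q Y))

/-! ### The children -/

/-- **KDS** (120 lines; uses SDR). A child `F` on the side of `O` is a state with the roots `O`
(cluster `Q`) and `Rt G C H Y` (cluster `R`, main colour `f`). Proof: the main part of the new root is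
connected by SDR (`N = R`), `R` touches it by `Ct.hY` (`Sd G C H Y ⊆ Rt G C H Y \ R`). `F` does not
touch `Y` (`sep`), so `F` is disjoint from `Rt` and touches it only in `H`; `F` touches `H` because
`C` is connected, `H ≠ ∅` and `F` is closed in `C \ H`. `Dl G C O Y ⊆ Dl G F O (Rt G C H Y)`
(`Rt ⊆ Y ∪ C`). A visible vertex of `Dl G F O (Rt G C H Y)` is not in `F`, `O`, `H`, so by `out` it
is in `Dl G C O Y`. `pnt c₀ H R f D` agrees with `c₀` outside `C`. -/
def Stmt_KDS : Prop := ∀ (V : Type) (G : SimpleGraph V) (d : ℕ) (C O Q Y Q' H R : Set V)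
  (o y D f : Fin 4) (c₀ : V → Fin 4), Pre G C O Y → St4 G C O Q Y Q' o y D c₀ →
  Ct G d C O Y H R → f ≠ D → ∀ F, IsCmp G (C \ H) F → Tch G F O →
    St4 G F O Q (Rt G C H Y) R o f D (pnt c₀ H R f D)

/-- **LKF** (100 lines; uses CN1 CMP). The links. Proofs: (1) if `Q` touches `R`: `T = Q`
(disjoint from `F`, `O \ Q`, `Rt`; touches `R ⊆ Rt`) and `T = R` (disjoint from `F`, `Rt \ R`, `O`;
touches `Q ⊆ O`). (2) another child `F'` on the side of `O` which touches `Q`: `T = Q ∪ F'` (`F'`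
does not touch `Y`, so it is disjoint from `Rt`; it touches `H ⊆ Rt` as `C` is connected and
`H ≠ ∅`). (3) another child `F'` which touches `R`: `T = R ∪ F'` (touches `O` by `F'`). -/
def Stmt_LKF : Prop := ∀ (V : Type) (G : SimpleGraph V) (d : ℕ) (C O Q Y Q' H R : Set V)
  (o y D : Fin 4) (c₀ : V → Fin 4), Pre G C O Y → St4 G C O Q Y Q' o y D c₀ →
  Ct G d C O Y H R → ∀ F, IsCmp G (C \ H) F → Tch G F O →
    (Tch G Q R → LK G F O Q (Rt G C H Y) ∧ LK G F (Rt G C H Y) R O) ∧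
    ∀ F', IsCmp G (C \ H) F' → Tch G F' O → F' ≠ F →
      (Tch G F' Q → LK G F O Q (Rt G C H Y)) ∧ (Tch G F' R → LK G F (Rt G C H Y) R O)

/-- **KDO** (50 lines; uses PRE NRM KDS LKF). The children on the side of `O`. Proof: NRM for the
state of KDS (`Y := Rt G C H Y`, `Q' := R`); the words not linked gives `¬ Tch G Q R` and `Alone` by LKF. -/
def Stmt_KDO : Prop := ∀ (V : Type) (G : SimpleGraph V) (d : ℕ) (C O Q Y Q' H R : Set V)
  (o y D f : Fin 4) (c₀ : V → Fin 4), St4 G C O Q Y Q' o y D c₀ → Ct G d C O Y H R →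
  f ≠ D → ∀ F, IsCmp G (C \ H) F → Tch G F O →
    ∃ S, Any G F S (pnt c₀ H R f D) ∧ Kp G C O H Q R F S

/-- **KD0** (130 lines; uses PRE SDR CN2). The children which touch neither root. Proof:
`A = Sd G C H O ∪ R ∪ Dl G C O Y` (connected: SDR for `O` (`Pre.symm`, `Ct.symm`) with `N = R`, and
CN2 for the sets `Z`, which touch `O`), `B = Sd G C H Y ∪ (H \ R)` (SDR). They are disjoint from each
other (`sep`; the sets `Z` are disjoint from `C`, `O`, `Y`) and from `F` (`F` touches neither `O`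
nor `Y`), and all neighbours of `F` outside `F` lie in `H ∪ Dl G C O Y`. Visible vertices of `A` are
in `R` or `Dl G C O Y`: colour `D`; those of `B` are in `H \ R`: colour `f`. If `F` touches `A` and
`B`: `St4 G F A ∅ B ∅ D f D₁` with `D₁ ≠ D`, `D₁ ≠ f`. If `F` does not touch `A`: `Sg` with
`Z = B`; if `F` does not touch `B`: `Sg` with `Z = A`. -/
def Stmt_KD0 : Prop := ∀ (V : Type) (G : SimpleGraph V) (d : ℕ) (C O Q Y Q' H R : Set V)
  (o y D f : Fin 4) (c₀ : V → Fin 4), St4 G C O Q Y Q' o y D c₀ → Ct G d C O Y H R →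
  f ≠ D → ∀ F, IsCmp G (C \ H) F → ¬ Tch G F O → ¬ Tch G F Y →
    Any G F ∅ (pnt c₀ H R f D)

/-! ### Gluing -/

/-- **GL4** (20 lines; uses CMP). Pure gluing over the components of `S`
(`c v = cF (Cmp G S v) v` for `v ∈ S`). -/
def Stmt_GL4 : Prop := ∀ (V : Type) (G : SimpleGraph V) (S : Set V) (c₁ : V → Fin 4)
  (cF : Set V → V → Fin 4), ∃ c : V → Fin 4, (∀ v, v ∉ S → c v = c₁ v) ∧
    ∀ F, IsCmp G S F → ∀ v ∈ F, c v = cF F v

/-- **TR4** (40 lines). `Gd` depends only on the colours of the region and its neighbours. -/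
def Stmt_TR4 : Prop := ∀ (V : Type) (G : SimpleGraph V) (d : ℕ) (F S : Set V)
  (c₁ c' c : V → Fin 4), (∀ v ∈ F, c v = c' v) →
  (∀ x ∈ F, ∀ u, G.Adj x u → c u = c' u) → Gd G d F S c₁ c' → Gd G d F S c c

/-- **ND4** (120 lines; uses KDO KD0 GL4 TR4 CMP). Gluing the colourings of the children. Proof:
`c₁ = pnt c₀ H R f D`. For every component `F` of `C \ H` KDO (for the side of `Y`: KDO for
`St4.symm`, `Ct.symm`) or KD0 gives a set `S F` with `Any G F (S F) c₁`, and the induction hypothesis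
(`F ⊆ C \ H` has fewer elements than `C`) gives a good extension `cF F` of `c₁`. Glue by GL4
(`S = C \ H`), and transfer by TR4: the neighbours of `F` outside `F` lie in `H` or outside `C`,
where `c = c₁ = cF F`. -/
def Stmt_ND4 : Prop := ∀ (V : Type) [Fintype V] (G : SimpleGraph V) (d : ℕ)
  (C O Q Y Q' H R : Set V) (o y D f : Fin 4) (c₀ : V → Fin 4),
  St4 G C O Q Y Q' o y D c₀ → Ct G d C O Y H R → f ≠ o → f ≠ y → f ≠ D →
  (∀ (C' S' : Set V) (c' : V → Fin 4), C'.ncard < C.ncard → Any G C' S' c' →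
    ∃ c, Gd G d C' S' c' c) →
  ∃ c, Node4 G d C O Q Y Q' H R o y D f c₀ c

/-! ### The conclusions for a node -/

/-- **NC4** (70 lines; uses CMP). A vertex `x ∈ C` with a neighbour `u ∉ C` of its own colour.
Proof: `x ∈ H \ R` has the colour `f`, which no visible vertex has (`out`, `cO`, `cY`, `cD`). If `x`
is in a component `F` of `C \ H`, the conflict gives `u ∈ S ⊆ Q ∪ R` (or `Q' ∪ R`; `kid0`
excludes it), and `u ∉ R ⊆ C`. If `x ∈ R` then `c u = D`; by `out` `u ∈ O`, then `u ∈ Q` (`cO`,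
`oD`), or `u ∈ Y`, then `u ∈ Q'`, or `u ∈ Dl G C O Y`, excluded by `offD`. -/
def Stmt_NC4 : Prop := ∀ (V : Type) (G : SimpleGraph V) (d : ℕ) (C O Q Y Q' H R : Set V)
  (o y D f : Fin 4) (c₀ c : V → Fin 4), Node4 G d C O Q Y Q' H R o y D f c₀ c →
  ∀ x ∈ C, ∀ u, u ∉ C → G.Adj x u → c u = c x → (u ∈ Q ∨ u ∈ Q') ∧ x ∉ H \ R

/-- **NFO** (100 lines; uses NC4 CMP). A vertex `u ∈ Q` has at most three conflicts with `C`. Proof:
let `T` be the set; `x ∈ T` is in `R` (NC4) or in a component `F` of `C \ H`, which touches `Q`, so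
`O`, and then `u ∈ S` for the `S` of `kidO` (`conf`), so `pQ` applies. If `Q` touches `R`, then
`T ⊆ R` (`pQ`). If not, then `T ∩ R = ∅`; let `x₀ ∈ T` be in the component `F₀`. All `x ∈ T` are in
`F₀` (then `few`): if `x` is in `F ≠ F₀`, both touch `Q`, so `Alone G C H O Q _` is false for both;
`pQ` gives `Tch G F₀ R`, `Alone G C H O R F₀`, `Tch G F R`: contradiction. -/
def Stmt_NFO : Prop := ∀ (V : Type) [Fintype V] (G : SimpleGraph V) (d : ℕ)
  (C O Q Y Q' H R : Set V) (o y D f : Fin 4) (c₀ c : V → Fin 4),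
  Node4 G d C O Q Y Q' H R o y D f c₀ c →
  ∀ u ∈ Q, {x | x ∈ C ∧ G.Adj u x ∧ c x = c u}.ncard ≤ 3

/-- **NRO** (80 lines; uses CMP). A special vertex `x ∈ R` has at most three conflicts with the
children on the side of `O`. Proof: as NFO, with `pR` (all conflicts are in one component). -/
def Stmt_NRO : Prop := ∀ (V : Type) [Fintype V] (G : SimpleGraph V) (d : ℕ)
  (C O Q Y Q' H R : Set V) (o y D f : Fin 4) (c₀ c : V → Fin 4),
  Node4 G d C O Q Y Q' H R o y D f c₀ c →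
  ∀ x ∈ R, {z | z ∈ C \ H ∧ Tch G (Cmp G (C \ H) z) O ∧ G.Adj x z ∧ c z = c x}.ncard ≤ 3

/-- **NM4** (70 lines; uses NC4 CMP). The defect of the vertices of `C \ R`. Proof: for `x` in a
component `F` of `C \ H` it is `defect` of the child. For `x ∈ H \ R`: a neighbour `z` of colour `f`
is not outside `C` (NC4), not in `R` (colour `D`), not in a component `F` of `C \ H` (`conf` of the
child for `z ∈ F` and `u = x ∉ F` gives `x ∈ S ⊆ Q ∪ R`, but `x ∉ R` and `x ∈ C` is not in `Q`), so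
`z ∈ nb G x (H \ R)`. -/
def Stmt_NM4 : Prop := ∀ (V : Type) [Fintype V] (G : SimpleGraph V) (d : ℕ)
  (C O Q Y Q' H R : Set V) (o y D f : Fin 4) (c₀ c : V → Fin 4),
  Node4 G d C O Q Y Q' H R o y D f c₀ c →
  ∀ x ∈ C, x ∉ R → {z | G.Adj x z ∧ c z = c x}.ncard ≤ d

/-- **NR4** (80 lines; uses NC4 NRO CMP). The defect of a special vertex `x ∈ R`. Proof: a neighbour
`z` of colour `D` is in `Q` or `Q'` (NC4; at most `3 + 3`), in `R \ {x}` (at most 2), not in `H \ R`
(colour `f`), or in a component of `C \ H`: not one touching neither root (`kid0`), so it is counted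
by NRO for `O` or by NRO for `Y` (`Node4.symm`). Together at most 14. -/
def Stmt_NR4 : Prop := ∀ (V : Type) [Fintype V] (G : SimpleGraph V) (d : ℕ)
  (C O Q Y Q' H R : Set V) (o y D f : Fin 4) (c₀ c : V → Fin 4), 14 ≤ d →
  Node4 G d C O Q Y Q' H R o y D f c₀ c → ∀ x ∈ R, {z | G.Adj x z ∧ c z = c x}.ncard ≤ d

/-- **NG4** (50 lines; uses NC4 NFO NM4 NR4). A node gives a good extension. `few`: for `u ∈ Q` NFO,
for `u ∈ Q'` NFO for `Node4.symm`, otherwise the set is empty by NC4. -/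
def Stmt_NG4 : Prop := ∀ (V : Type) [Fintype V] (G : SimpleGraph V) (d : ℕ)
  (C O Q Y Q' H R : Set V) (o y D f : Fin 4) (c₀ c : V → Fin 4), 14 ≤ d →
  Node4 G d C O Q Y Q' H R o y D f c₀ c → Gd G d C (Q ∪ Q') c₀ c

/-! ### Assembly -/

/-- **S24** (40 lines; uses PRE CTX ND4 NG4). The step for two roots (`f` is a colour different from
`o`, `y`, `D`). -/
def Stmt_S24 : Prop := ∀ (V : Type) [Fintype V] (G : SimpleGraph V) (d : ℕ)
  (C O Q Y Q' : Set V) (o y D : Fin 4) (c₀ : V → Fin 4), 14 ≤ d → Free G (d + 2) →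
  St4 G C O Q Y Q' o y D c₀ →
  (∀ (C' S' : Set V) (c' : V → Fin 4), C'.ncard < C.ncard → Any G C' S' c' →
    ∃ c, Gd G d C' S' c' c) →
  ∃ c, Gd G d C (Q ∪ Q') c₀ c

/-- **S14** (130 lines; uses GL4 TR4 CMP). The step for one root. Proof: take any `v ∈ C`,
`c₁ = Function.update c₀ v k` with `k` different from the colour `z` visible on `Z`. A component `F`
of `C \ {v}` touches `v` (`C` is connected). If `F` touches `Z` (then `Conn G Z`):
`St4 G F Z ∅ {v} ∅ z k D c₁` with `D ≠ z`, `D ≠ k` (no visible vertex is in `Dl`); otherwise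
`Sg G F {v} c₁`. So `Any G F ∅ c₁`. Glue by GL4 and TR4; `v` has no neighbour of its colour
(`conf` of the children with `S = ∅`, and `k ≠ z`). -/
def Stmt_S14 : Prop := ∀ (V : Type) [Fintype V] (G : SimpleGraph V) (d : ℕ) (C Z : Set V)
  (c₀ : V → Fin 4), Sg G C Z c₀ →
  (∀ (C' S' : Set V) (c' : V → Fin 4), C'.ncard < C.ncard → Any G C' S' c' →
    ∃ c, Gd G d C' S' c' c) →
  ∃ c, Gd G d C ∅ c₀ c

/-- **ALL4** (60 lines; uses S24 S14 GL4 CMP). Strong induction on the number of vertices of the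
region; every component of `Set.univ` is a state with one root `∅`; glue them (GL4). -/
def Stmt_ALL4 : Prop := ∀ (V : Type) [Fintype V] (G : SimpleGraph V) (d : ℕ),
  14 ≤ d → Free G (d + 2) → DefColorable G 4 d

/-- **FIN4** (20 lines; uses ALL4). In terms of `HasBicliqueMinor`. Proof:
`not_KM_of_not_minor` (Work/MP_768e99_co/Main.lean). -/
def Stmt_FIN4 : Prop := ∀ d : ℕ, 14 ≤ d → ∀ (V : Type) [Fintype V] (G : SimpleGraph V),
  ¬ HasBicliqueMinor G 3 (d + 2) → DefColorable G 4 d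

end Pool.K3G
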